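import Pool.Agent.Y996.TL.Stm
import Pool.Agent.H980R3.Slit.C01
import Pool.Agent.H980R3.Slit.C02
import Pool.Agent.H980R3.Slit.C03
import Pool.Agent.H980R3.Slit.C04
import Pool.Agent.H980R3.Slit.C05

/-! Job TL-C45 (helper996): window states versus the window graph (adapted from C04, C05 of project
Slit). -/

namespace Pool.Agent.Y786.TLZ

open Pool.Agent.H988R2.Perc hiding X
open Pool.Agent.H980R3.Slit
open Pool.Agent.Y996.TL
open Relation

/-- upper left strip -/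
theorem r1 (a M : ℕ) (ω : Conf) (x y : ℕ) (ha : Odd a) (hx : x % 2 = 1) (hy : y % 2 = 1)
    (hxa : x ≤ a) (hya : y ≤ a) :
    (Pool.Agent.H988R2.Perc.X a (actBit (oFut ω M)) M).rel x y ↔
      EqvGen (E1 a M ω) ((x : ℤ), 0) ((y : ℤ), 0) :=
  t_C01 a M ω x y ha hx hy hxa hya

/-- lower strip -/
theorem r0 (a b M : ℕ) (ω : Conf) (x y : ℕ) (ha : Odd a) (hb : Odd b) (hx : x % 2 = 1)
    (hy : y % 2 = 1) (hxa : x ≤ a + b + 3) (hya : y ≤ a + b + 3) :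
    (Pool.Agent.H988R2.Perc.X (a+b+3) (actBit (oPast ω M)) M).rel x y ↔
      EqvGen (E0 a (b+2) M ω) ((x : ℤ), 0) ((y : ℤ), 0) :=
  t_C02 a (b+2) M ω x y ha (hb.add_even even_two) hx hy (by omega) (by omega)

/-- upper right strip -/
theorem r2 (a b M : ℕ) (ω : Conf) (x y : ℕ) (ha : Odd a) (hb : Odd b) (hx : x % 2 = 1)
    (hy : y % 2 = 1) (hxa : a + 4 ≤ x) (hya : a + 4 ≤ y) (hxb : x ≤ a + b + 3)
    (hyb : y ≤ a + b + 3) :
    (Pool.Agent.H988R2.Perc.X b (actBit (oFutR (a+2) ω M)) M).rel (x - (a+3)) (y - (a+3)) ↔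
      EqvGen (E2 (a+2) b M ω) ((x : ℤ), 0) ((y : ℤ), 0) := by
  have ha2 : a % 2 = 1 := Nat.odd_iff.mp ha
  have h := t_C03 (a+2) b M ω (x - (a+3)) (y - (a+3)) (ha.add_even even_two) hb (by omega)
    (by omega) (by omega) (by omega)
  have e1 : ((x - (a+3) : ℕ) : ℤ) + (((a + 2 : ℕ) : ℤ) + 1) = x := by omega
  have e2 : ((y - (a+3) : ℕ) : ℤ) + (((a + 2 : ℕ) : ℤ) + 1) = y := by omega
  rw [e1, e2] at h
  exact h

theorem key4 (a b M : ℕ) (ω : Conf) (ha : Odd a) (hb : Odd b) (x y : ℕ)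
    (hxy : EqvGen (J5 a (Pool.Agent.H988R2.Perc.X (a+b+3) (actBit (oPast ω M)) M)
      (Pool.Agent.H988R2.Perc.X a (actBit (oFut ω M)) M)
      (Pool.Agent.H988R2.Perc.X b (actBit (oFutR (a+2) ω M)) M)) x y) :
    x = y ∨ EqvGen (FF5 a b M ω) ((x : ℤ), 0) ((y : ℤ), 0) := by
  have haL : Odd (a + b + 3) := by
    obtain ⟨i, hi⟩ := ha; obtain ⟨j, hj⟩ := hb; exact ⟨i + j + 2, by omega⟩
  have ha2 : a % 2 = 1 := Nat.odd_iff.mp ha
  have hb2 : b % 2 = 1 := Nat.odd_iff.mp hb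
  induction hxy with
  | rel x y h =>
    by_cases hxy : x = y
    · exact Or.inl hxy
    right
    rcases h with h | ⟨h, hx, hy⟩ | ⟨hx, hy, h⟩
    · have ho : x % 2 = 1 ∧ y % 2 = 1 := by
        rcases (Pool.Agent.H988R2.Perc.X (a+b+3) (actBit (oPast ω M)) M).odd _ _ h with h' | h'
        · exact absurd h' hxy
        · exact h'
      have hs : x ≤ a + b + 3 ∧ y ≤ a + b + 3 := by
        rcases X_supp (a+b+3) haL M _ _ _ h with h' | h'
        · exact absurd h' hxy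
        · exact h'
      exact c04_mono (fun _ _ h => Or.inl h)
        ((r0 a b M ω x y ha hb ho.1 ho.2 hs.1 hs.2).1 h)
    · have ho : x % 2 = 1 ∧ y % 2 = 1 := by
        rcases (Pool.Agent.H988R2.Perc.X a (actBit (oFut ω M)) M).odd _ _ h with h' | h'
        · exact absurd h' hxy
        · exact h'
      exact c04_mono (fun _ _ h => Or.inr (Or.inl h))
        ((r1 a M ω x y ha ho.1 ho.2 hx hy).1 h)
    · have hne : x - (a+3) ≠ y - (a+3) := by omega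
      have ho : (x - (a+3)) % 2 = 1 ∧ (y - (a+3)) % 2 = 1 := by
        rcases (Pool.Agent.H988R2.Perc.X b (actBit (oFutR (a+2) ω M)) M).odd _ _ h with h' | h'
        · exact absurd h' hne
        · exact h'
      have hs : x - (a+3) ≤ b ∧ y - (a+3) ≤ b := by
        rcases X_supp b hb M _ _ _ h with h' | h'
        · exact absurd h' hne
        · exact h'
      exact c04_mono (fun _ _ h => Or.inr (Or.inr h))
        ((r2 a b M ω x y ha hb (by omega) (by omega) hx hy (by omega) (by omega)).1 h)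
  | refl x => exact Or.inl rfl
  | symm x y _ ih =>
    rcases ih with h | h
    · exact Or.inl h.symm
    · exact Or.inr (h.symm _ _)
  | trans x y z _ _ ih1 ih2 =>
    rcases ih1 with h | h
    · subst h; exact ih2
    · rcases ih2 with k | k
      · subst k; exact Or.inr h
      · exact Or.inr (h.trans _ _ _ k)

theorem c4 : S_C4 := by
  intro a b M ω ha hb
  have e : (((a + b + 3 : ℕ) : ℤ)) = (a : ℤ) + b + 3 := by push_cast; ring
  have e' : (((a + 2 : ℕ) : ℤ)) = (a : ℤ) + 2 := by push_cast; ring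
  constructor
  · intro hw
    rcases key4 a b M ω ha hb _ _ hw with h | h
    · have hb2 : b % 2 = 1 := Nat.odd_iff.mp hb
      omega
    · rw [e, e'] at h
      exact h
  · intro hw
    rcases key4 a b M ω ha hb _ _ hw with h | h
    · omega
    · rw [e] at h
      exact h

namespace C5

open Pool.Agent.H980R3.Slit.C05 (gp_facts eqv_V slice_eq)

/-- vertices of the three parts -/
def V0 (a b : ℕ) (p : ℤ × ℤ) : Prop :=
  (p.2 ≤ 0 ∧ (p.1 + p.2) % 2 = 1 ∧ 0 ≤ p.1 ∧ p.1 ≤ a + b + 3) ∨ p.1 = a + b + 3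

def V1 (a : ℕ) (p : ℤ × ℤ) : Prop :=
  0 ≤ p.2 ∧ p.1 ≤ a ∧ (((p.1 + p.2) % 2 = 1 ∧ 0 ≤ p.1) ∨ p.1 = a)

def V2 (a b : ℕ) (p : ℤ × ℤ) : Prop :=
  (0 ≤ p.2 ∧ (p.1 + p.2) % 2 = 1 ∧ a + 3 ≤ p.1 ∧ p.1 ≤ a + b + 3) ∨ p.1 = a + b + 3

theorem e0_V {a b M : ℕ} {ω : Conf} {p p' : ℤ × ℤ} (h : E0 a (b+2) M ω p p') :
    V0 a b p ∧ V0 a b p' := by
  rcases h with h | ⟨h1, h2⟩
  · obtain ⟨f1, f2, f3, f4, f5, f6, f7, f8, f9⟩ := gp_facts h
    exact ⟨Or.inl ⟨by omega, f4, by omega, by omega⟩, Or.inl ⟨by omega, f5, by omega, by omega⟩⟩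
  · exact ⟨Or.inr (by omega), Or.inr (by omega)⟩

theorem e1_V {a M : ℕ} {ω : Conf} {p p' : ℤ × ℤ} (h : E1 a M ω p p') :
    V1 a p ∧ V1 a p' := by
  rcases h with h | ⟨h1, h2, h3, h4⟩
  · obtain ⟨f1, f2, f3, f4, f5, f6, f7, f8, f9⟩ := gp_facts h
    exact ⟨⟨by omega, f7, Or.inl ⟨f4, by omega⟩⟩, ⟨by omega, f9, Or.inl ⟨f5, by omega⟩⟩⟩
  · exact ⟨⟨h3, h1.le, Or.inr h1⟩, ⟨h4, h2.le, Or.inr h2⟩⟩

theorem e2_V {a b M : ℕ} {ω : Conf} {p p' : ℤ × ℤ} (h : E2 (a+2) b M ω p p') :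
    V2 a b p ∧ V2 a b p' := by
  rcases h with h | ⟨h1, h2⟩
  · obtain ⟨f1, f2, f3, f4, f5, f6, f7, f8, f9⟩ := gp_facts h
    exact ⟨Or.inl ⟨by omega, f4, by omega, by omega⟩, Or.inl ⟨by omega, f5, by omega, by omega⟩⟩
  · exact ⟨Or.inr (by omega), Or.inr (by omega)⟩

theorem main (a b M : ℕ) (ω : Conf) (ha : Odd a) (hb : Odd b) (s : ℕ) (hs : s % 2 = 1)
    (hsL : s ≤ a + b + 3) (hEE : EqvGen (FF5 a b M ω) ((s : ℤ), 0) ((a : ℤ) + b + 3, 0)) :
    EqvGen (J5 a (Pool.Agent.H988R2.Perc.X (a+b+3) (actBit (oPast ω M)) M)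
      (Pool.Agent.H988R2.Perc.X a (actBit (oFut ω M)) M)
      (Pool.Agent.H988R2.Perc.X b (actBit (oFutR (a+2) ω M)) M)) s (a+b+3) := by
  have ha1 : a % 2 = 1 := Nat.odd_iff.mp ha
  have hb1 : b % 2 = 1 := Nat.odd_iff.mp hb
  set R := Pool.Agent.H988R2.Perc.X (a+b+3) (actBit (oPast ω M)) M with hR
  set R1 := Pool.Agent.H988R2.Perc.X a (actBit (oFut ω M)) M with hR1
  set R2 := Pool.Agent.H988R2.Perc.X b (actBit (oFutR (a+2) ω M)) M with hR2
  set J := J5 a R R1 R2 with hJ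
  -- the three gluing rules
  have g0 : ∀ x y : ℕ, x % 2 = 1 → y % 2 = 1 → x ≤ a + b + 3 → y ≤ a + b + 3 →
      EqvGen (E0 a (b+2) M ω) ((x : ℤ), 0) ((y : ℤ), 0) → EqvGen J s x → EqvGen J s y := by
    intro x y hx hy hxL hyL h hJx
    have h' := (r0 a b M ω x y ha hb hx hy hxL hyL).2 h
    exact hJx.trans _ _ _ (EqvGen.rel _ _ (Or.inl h'))
  have g1 : ∀ x y : ℕ, x % 2 = 1 → y % 2 = 1 → x ≤ a → y ≤ a →
      EqvGen (E1 a M ω) ((x : ℤ), 0) ((y : ℤ), 0) → EqvGen J s x → EqvGen J s y := by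
    intro x y hx hy hxL hyL h hJx
    have h' := (r1 a M ω x y ha hx hy hxL hyL).2 h
    exact hJx.trans _ _ _ (EqvGen.rel _ _ (Or.inr (Or.inl ⟨h', hxL, hyL⟩)))
  have g2 : ∀ x y : ℕ, x % 2 = 1 → y % 2 = 1 → a + 4 ≤ x → a + 4 ≤ y → x ≤ a + b + 3 →
      y ≤ a + b + 3 →
      EqvGen (E2 (a+2) b M ω) ((x : ℤ), 0) ((y : ℤ), 0) → EqvGen J s x → EqvGen J s y := by
    intro x y hx hy hax hay hxL hyL h hJx
    have h' := (r2 a b M ω x y ha hb hx hy hax hay hxL hyL).2 h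
    exact hJx.trans _ _ _ (EqvGen.rel _ _ (Or.inr (Or.inr ⟨hax, hay, h'⟩)))
  -- walls
  have w0 : ∀ p q : ℤ × ℤ, p.1 = a + b + 3 → q.1 = a + b + 3 → EqvGen (E0 a (b+2) M ω) p q :=
    fun p q hp hq => EqvGen.rel _ _ (Or.inr ⟨by rw [hp]; push_cast; ring, by rw [hq]; push_cast; ring⟩)
  have w2 : ∀ p q : ℤ × ℤ, p.1 = a + b + 3 → q.1 = a + b + 3 → EqvGen (E2 (a+2) b M ω) p q :=
    fun p q hp hq => EqvGen.rel _ _ (Or.inr ⟨by rw [hp]; push_cast; ring, by rw [hq]; push_cast; ring⟩)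
  have hLc : ((a + b + 3 : ℕ) : ℤ) = (a : ℤ) + b + 3 := by push_cast; ring
  -- the invariant
  let P : ℤ × ℤ → Prop := fun p => ∃ x : ℕ, x % 2 = 1 ∧ x ≤ a + b + 3 ∧ EqvGen J s x ∧
    (EqvGen (E0 a (b+2) M ω) ((x : ℤ), 0) p ∨ (x ≤ a ∧ EqvGen (E1 a M ω) ((x : ℤ), 0) p) ∨
      (a + 4 ≤ x ∧ EqvGen (E2 (a+2) b M ω) ((x : ℤ), 0) p))
  -- the vertices reached are vertices of the part
  have v0 : ∀ (x : ℕ) (p : ℤ × ℤ), x % 2 = 1 → x ≤ a + b + 3 →
      EqvGen (E0 a (b+2) M ω) ((x : ℤ), 0) p → V0 a b p := by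
    intro x p hx hxL h
    exact eqv_V (V := V0 a b) (fun _ _ h => e0_V h) h (Or.inl ⟨le_rfl, by dsimp only; omega, by dsimp only; omega,
      by dsimp only; omega⟩)
  have v1 : ∀ (x : ℕ) (p : ℤ × ℤ), x % 2 = 1 → x ≤ a →
      EqvGen (E1 a M ω) ((x : ℤ), 0) p → V1 a p := by
    intro x p hx hxL h
    exact eqv_V (V := V1 a) (fun _ _ h => e1_V h) h ⟨le_rfl, by dsimp only; omega,
      Or.inl ⟨by dsimp only; omega, by dsimp only; omega⟩⟩
  have v2 : ∀ (x : ℕ) (p : ℤ × ℤ), x % 2 = 1 → a + 4 ≤ x → x ≤ a + b + 3 →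
      EqvGen (E2 (a+2) b M ω) ((x : ℤ), 0) p → V2 a b p := by
    intro x p hx hax hxL h
    exact eqv_V (V := V2 a b) (fun _ _ h => e2_V h) h (Or.inl ⟨le_rfl, by dsimp only; omega, by dsimp only; omega,
      by dsimp only; omega⟩)
  -- change of part
  have key0 : ∀ p, P p → V0 a b p → ∃ x : ℕ, x % 2 = 1 ∧ x ≤ a + b + 3 ∧ EqvGen J s x ∧
      EqvGen (E0 a (b+2) M ω) ((x : ℤ), 0) p := by
    rintro p ⟨x, hx, hxL, hJx, h | ⟨hxa, h⟩ | ⟨hax, h⟩⟩ hV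
    · exact ⟨x, hx, hxL, hJx, h⟩
    · obtain ⟨u1, u2, u3⟩ := v1 x p hx hxa h
      rcases hV with ⟨t1, t2, t3, t4⟩ | t1
      · have e := slice_eq (p := p) (by omega) t3
        rw [e] at h
        refine ⟨p.1.toNat, by omega, by omega,
          g1 x p.1.toNat hx (by omega) hxa (by omega) h hJx, ?_⟩
        rw [← e]
        exact EqvGen.refl _
      · omega
    · by_cases hp : p.1 = a + b + 3
      · refine ⟨a + b + 3, by omega, le_rfl, g2 x (a + b + 3) hx (by omega) hax (by omega) hxL le_rfl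
          (h.trans _ _ _ (w2 p _ hp ?_)) hJx, w0 _ _ ?_ hp⟩
        · exact hLc
        · exact hLc
      · have hV2 := v2 x p hx hax hxL h
        rcases hV with ⟨t1, t2, t3, t4⟩ | t1
        · rcases hV2 with ⟨u1, u2, u3, u4⟩ | u1
          · have e := slice_eq (p := p) (by omega) t3
            rw [e] at h
            refine ⟨p.1.toNat, by omega, by omega,
              g2 x p.1.toNat hx (by omega) hax (by omega) hxL (by omega) h hJx, ?_⟩
            rw [← e]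
            exact EqvGen.refl _
          · exact absurd u1 hp
        · exact absurd t1 hp
  have key1 : ∀ p, P p → V1 a p → ∃ x : ℕ, x % 2 = 1 ∧ x ≤ a ∧ EqvGen J s x ∧
      EqvGen (E1 a M ω) ((x : ℤ), 0) p := by
    rintro p ⟨x, hx, hxL, hJx, h | ⟨hxa, h⟩ | ⟨hax, h⟩⟩ ⟨u1, u2, u3⟩
    · rcases v0 x p hx hxL h with ⟨t1, t2, t3, t4⟩ | t1
      · have e := slice_eq (p := p) (by omega) t3
        rw [e] at h
        refine ⟨p.1.toNat, by omega, by omega,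
          g0 x p.1.toNat hx (by omega) hxL (by omega) h hJx, ?_⟩
        rw [← e]
        exact EqvGen.refl _
      · omega
    · exact ⟨x, hx, hxa, hJx, h⟩
    · rcases v2 x p hx hax hxL h with ⟨t1, t2, t3, t4⟩ | t1
      · omega
      · omega
  have key2 : ∀ p, P p → V2 a b p → ∃ x : ℕ, x % 2 = 1 ∧ a + 4 ≤ x ∧ x ≤ a + b + 3 ∧ EqvGen J s x ∧
      EqvGen (E2 (a+2) b M ω) ((x : ℤ), 0) p := by
    rintro p ⟨x, hx, hxL, hJx, h | ⟨hxa, h⟩ | ⟨hax, h⟩⟩ hV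
    · by_cases hp : p.1 = a + b + 3
      · refine ⟨a + b + 3, by omega, by omega, le_rfl, g0 x (a + b + 3) hx (by omega) hxL le_rfl
          (h.trans _ _ _ (w0 p _ hp ?_)) hJx, w2 _ _ ?_ hp⟩
        · exact hLc
        · exact hLc
      · rcases v0 x p hx hxL h with ⟨t1, t2, t3, t4⟩ | t1
        · rcases hV with ⟨u1, u2, u3, u4⟩ | u1
          · have e := slice_eq (p := p) (by omega) t3
            rw [e] at h
            refine ⟨p.1.toNat, by omega, by omega, by omega,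
              g0 x p.1.toNat hx (by omega) hxL (by omega) h hJx, ?_⟩
            rw [← e]
            exact EqvGen.refl _
          · exact absurd u1 hp
        · exact absurd t1 hp
    · obtain ⟨u1, u2, u3⟩ := v1 x p hx hxa h
      rcases hV with ⟨t1, t2, t3, t4⟩ | t1
      · omega
      · omega
    · exact ⟨x, hx, hax, hxL, hJx, h⟩
  -- the steps
  have st0 : ∀ p p', V0 a b p → EqvGen (E0 a (b+2) M ω) p p' → P p → P p' := by
    intro p p' hV he hP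
    obtain ⟨x, hx, hxL, hJx, h⟩ := key0 p hP hV
    exact ⟨x, hx, hxL, hJx, Or.inl (h.trans _ _ _ he)⟩
  have st1 : ∀ p p', V1 a p → EqvGen (E1 a M ω) p p' → P p → P p' := by
    intro p p' hV he hP
    obtain ⟨x, hx, hxa, hJx, h⟩ := key1 p hP hV
    exact ⟨x, hx, by omega, hJx, Or.inr (Or.inl ⟨hxa, h.trans _ _ _ he⟩)⟩
  have st2 : ∀ p p', V2 a b p → EqvGen (E2 (a+2) b M ω) p p' → P p → P p' := by
    intro p p' hV he hP
    obtain ⟨x, hx, hax, hxL, hJx, h⟩ := key2 p hP hV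
    exact ⟨x, hx, hxL, hJx, Or.inr (Or.inr ⟨hax, h.trans _ _ _ he⟩)⟩
  have main : P ((s : ℤ), 0) ↔ P ((a : ℤ) + b + 3, 0) := by
    refine T22.eqvGen_iff P ?_ hEE
    rintro p p' (h | h | h)
    · obtain ⟨hV, hV'⟩ := e0_V h
      exact ⟨st0 p p' hV (EqvGen.rel _ _ h), st0 p' p hV' (EqvGen.symm _ _ (EqvGen.rel _ _ h))⟩
    · obtain ⟨hV, hV'⟩ := e1_V h
      exact ⟨st1 p p' hV (EqvGen.rel _ _ h), st1 p' p hV' (EqvGen.symm _ _ (EqvGen.rel _ _ h))⟩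
    · obtain ⟨hV, hV'⟩ := e2_V h
      exact ⟨st2 p p' hV (EqvGen.rel _ _ h), st2 p' p hV' (EqvGen.symm _ _ (EqvGen.rel _ _ h))⟩
  have hPa : P ((s : ℤ), 0) := ⟨s, hs, hsL, EqvGen.refl _, Or.inl (EqvGen.refl _)⟩
  obtain ⟨x, hx, hxL, hJx, h⟩ := key0 _ (main.1 hPa) (Or.inr rfl)
  refine g0 x (a + b + 3) hx (by omega) hxL le_rfl ?_ hJx
  rw [hLc]
  exact h

end C5

theorem c5 : S_C5 := by
  intro a b M ω ha hb
  have ha1 : a % 2 = 1 := Nat.odd_iff.mp ha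
  have e' : (((a + 2 : ℕ) : ℤ)) = (a : ℤ) + 2 := by push_cast; ring
  constructor
  · intro h
    have hb1 : b % 2 = 1 := Nat.odd_iff.mp hb
    exact C5.main a b M ω ha hb (a+2) (by omega) (by omega) (by rw [e']; exact h)
  · intro h
    exact C5.main a b M ω ha hb a ha1 (by omega) h

end Pool.Agent.Y786.TLZ
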