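import Pool.Agent.Y996.TL.Stm
import Pool.Agent.H988C.BotTop

/-! Job TL-Z0 (helper996): a parameter `0` in front of the list: the arc of the first point ends
at the last point. -/

namespace Pool.Agent.Y786.TLZ

open Pool.Agent.H988R2.Perc Pool.Agent.H988C Finset

theorem Cop_add (c : ℂ) (j : ℕ) (f g : St →₀ ℂ) : Cop c j (f + g) = Cop c j f + Cop c j g := by
  unfold Cop
  rw [Finsupp.mapDomain_add, smul_add, smul_add]
  abel

theorem Cs_add (c : ℂ) (j n : ℕ) (f g : St →₀ ℂ) : Cs c j n (f + g) = Cs c j n f + Cs c j n g := by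
  induction n generalizing j with
  | zero => rfl
  | succ n ih => rw [Cs, Cs, Cs, ih, Cop_add]

theorem Cs_zero' (c : ℂ) (j n : ℕ) : Cs c j n 0 = 0 := by
  have := Cs_smul c 0 j n 0
  simpa using this

theorem Cs_sum (c : ℂ) (j n : ℕ) {ι : Type*} (s : Finset ι) (h : ι → St →₀ ℂ) :
    Cs c j n (∑ i ∈ s, h i) = ∑ i ∈ s, Cs c j n (h i) := by
  classical
  induction s using Finset.induction_on with
  | empty => simpa using Cs_zero' c j n
  | insert i s hi ih => rw [Finset.sum_insert hi, Finset.sum_insert hi, Cs_add, ih]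

/-- Reidemeister move, for the small arc -/
theorem Cop_Cop_ins {c : ℂ} (hc : c^2 + c + 1 = 0) (j : ℕ) (f : St →₀ ℂ) :
    Cop c j (Cop c (j+1) (Finsupp.mapDomain (St.ins j) f)) =
      Finsupp.mapDomain (St.ins (j+1)) f := by
  have hc3 : c^3 = 1 := by linear_combination (c - 1) * hc
  unfold Cop
  simp only [Finsupp.mapDomain_add, Finsupp.mapDomain_smul, ← Finsupp.mapDomain_comp, smul_add,
    smul_smul]
  have e1 : St.act (j+1) ∘ St.ins j = St.ins (j+1) := funext (St.act_succ_ins j)
  have e2 : St.act j ∘ St.ins j = St.ins j := funext (St.act_ins_self j)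
  have e3 : St.act j ∘ St.ins (j+1) = St.ins j := funext (St.act_ins_succ j)
  rw [e1, e2, e3]
  have h4 : c^4 = c := by linear_combination c * hc3
  have r1 : -c * -c + (-c^2 * -c + -c^2 * -c^2) = 0 := by
    linear_combination hc + hc3 + h4
  have r2 : -c * -c^2 = 1 := by linear_combination hc3
  rw [r2, one_smul]
  have : ∀ x y : St →₀ ℂ, (-c * -c) • x + y + ((-c^2 * -c) • x + (-c^2 * -c^2) • x) =
      y + (-c * -c + (-c^2 * -c + -c^2 * -c^2)) • x := by
    intro x y
    rw [add_smul, add_smul]; abel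
  rw [this, r1, zero_smul, add_zero]

theorem Cs_ins_far (c : ℂ) (i a n : ℕ) (hi : i ≤ a) (f : St →₀ ℂ) :
    Cs c (a+2) n (Finsupp.mapDomain (St.ins i) f) = Finsupp.mapDomain (St.ins i) (Cs c a n f) := by
  induction n generalizing a with
  | zero => rfl
  | succ n ih =>
    rw [Cs, Cs, show a + 2 + 1 = (a+1) + 2 by ring, ih (a+1) (by omega),
      mapDomain_Cop_comm (j := a+2) (fun R => ?_)]
    rw [St.act_ins_left (by omega)]; rfl

/-- sliding a small arc through the strand -/
theorem Cs_ins {c : ℂ} (hc : c^2 + c + 1 = 0) (k : ℕ) : ∀ (a n : ℕ), k ≤ n → ∀ f : St →₀ ℂ,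
    Cs c a (n+2) (Finsupp.mapDomain (St.ins (a+k)) f) =
      Finsupp.mapDomain (St.ins (a+1+k)) (Cs c a n f) := by
  induction k with
  | zero =>
    intro a n _ f
    rw [Cs, Cs, add_zero, show a+1+1 = a+2 by ring, Cs_ins_far c a a n le_rfl, Cop_Cop_ins hc]
  | succ k ih =>
    intro a n hn f
    obtain ⟨n, rfl⟩ : ∃ n', n = n' + 1 := ⟨n-1, by omega⟩
    rw [Cs]
    have := ih (a+1) n (by omega) f
    rw [show a + 1 + k = a + (k+1) by ring] at this
    rw [this, Cs, ← mapDomain_Cop_comm (i := a) (fun R => ?_),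
      show a + 1 + 1 + k = a + 1 + (k+1) by ring]
    rw [St.act_ins_right (by omega)]

theorem main {c : ℂ} (hc : c^2 + c + 1 = 0) (n : ℕ) : ∀ (w : Word), Dyck w → w.length = 2*n →
    ∃ R' : St, Cs c 0 (2*n) (Finsupp.mapDomain (St.ins (2*n)) (Finsupp.single (Phi n w) 1)) =
      Finsupp.single R' 1 ∧ R'.rel 1 (2*n+1) := by
  induction n with
  | zero =>
    intro w _ _
    refine ⟨St.ins 0 (Phi 0 w), ?_, ?_⟩
    · rw [Finsupp.mapDomain_single]; rfl
    · exact (St.ins 0 (Phi 0 w)).eqv.1 1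
  | succ n ih =>
    intro w hw hl
    cases hw with
    | nil => simp at hl
    | ins i w' hi hw' =>
      have hl' : w'.length = 2*n := by rw [length_ins] at hl; omega
      obtain ⟨R', h1, h2⟩ := ih w' hw' hl'
      refine ⟨St.ins (i+1) R', ?_, ?_⟩
      · have e1 : Phi (n+1) (ins i w') = St.ins i (Phi n w') := Phi_ins hw' hl' (by omega)
        have e2 : St.ins (2*(n+1)) (St.ins i (Phi n w')) =
            St.ins i (St.ins (2*n) (Phi n w')) := by
          rw [St.ins_ins (i := i) (j := 2*n) (by omega)]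
          congr 1
        have h3 := Cs_ins hc i 0 (2*n) (by omega)
          (Finsupp.mapDomain (St.ins (2*n)) (Finsupp.single (Phi n w') 1))
        rw [h1, Finsupp.mapDomain_single, Finsupp.mapDomain_single, Finsupp.mapDomain_single,
          Nat.zero_add, show 0 + 1 + i = i + 1 by ring] at h3
        rw [e1, Finsupp.mapDomain_single, e2, show 2*(n+1) = 2*n+2 by ring, h3]
      · rw [St.ins_rel]
        right
        have hlow1 : St.low (i+1) 1 = 1 := by unfold St.low; rw [if_pos (by omega)]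
        have hlow2 : St.low (i+1) (2*(n+1)+1) = 2*n+1 := by
          unfold St.low; rw [if_neg (by omega)]; omega
        refine ⟨by norm_num, by omega, by omega, by omega, ?_⟩
        rw [hlow1, hlow2]
        exact h2

theorem z0 : Pool.Agent.Y996.TL.S_Z0 := by
  classical
  intro v hv hz R hR
  obtain ⟨n, hn⟩ := hv
  have hlen : v.length = 2*n := by omega
  have e1 : Psi (0 :: (v ++ [0])) = Cs q 0 v.length (Psi ([] ++ v ++ [0, 0])) := by
    have := exch0_all v hz [] (by simpa using ⟨n, hn⟩)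
    simpa using this
  rw [List.nil_append, Psi_zero_zero v ⟨n, hn⟩, Cs_smul, hlen, Psi_eq (n := n) hlen] at e1
  have e2 : Finsupp.mapDomain (St.ins (2*n))
      (∑ w ∈ LP (2*n), (Finsupp.single (Phi n w) (Fw w v) : St →₀ ℂ)) =
      ∑ w ∈ LP (2*n), (Fw w v) • Finsupp.mapDomain (St.ins (2*n))
        (Finsupp.single (Phi n w) (1:ℂ)) := by
    rw [Finsupp.mapDomain_finsetSum]
    refine Finset.sum_congr rfl (fun w _ => ?_)
    rw [← Finsupp.mapDomain_smul, Finsupp.smul_single, smul_eq_mul, mul_one]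
  rw [e2, Cs_sum] at e1
  rw [e1] at hR
  by_contra hcon
  rw [Finsupp.mem_support_iff] at hR
  apply hR
  rw [Finsupp.smul_apply, Finsupp.finsetSum_apply, Finset.sum_eq_zero, smul_zero]
  intro w hw
  rw [mem_LP] at hw
  obtain ⟨R', h1, h2⟩ := main q_spec n w hw.2 hw.1
  rw [Cs_smul, h1, Finsupp.smul_apply, Finsupp.single_apply, if_neg, smul_zero]
  rintro rfl
  apply hcon
  rw [hlen]
  exact h2

end Pool.Agent.Y786.TLZ
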